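import Pool.Agent.N298.HS.StmB

/-! Project HS, part HEIS (helper50). -/

set_option autoImplicit false

namespace Pool.Agent.N50.HS.HEIS

open Pool.Agent.N298.HS

theorem t_heis : S_HEIS := by
  intro R _ H _ _ _ X Y Z σ hσ hZ hXZ hYZ hXY v w hv hw hfix
  have Zadd : ∀ r s x, Z (r + s) x = Z r (Z s x) := fun r s x => by rw [hZ]; rfl
  have Z0 : ∀ x, Z 0 x = x := by
    intro x
    have h := Zadd 0 0 x
    rw [add_zero] at h
    exact ((Z 0).injective h).symm
  have Zinner : ∀ r x y, inner ℂ x (Z r y) = inner ℂ (Z (-r) x) y := by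
    intro r x y
    rw [← (Z r).inner_map_map (Z (-r) x) y, ← Zadd, add_neg_cancel, Z0]
  set u := Y 1 v with hu
  have hXu : ∀ r, X r u = Z (σ * r) u := by
    intro r
    have h := DFunLike.congr_fun (hXY r 1) v
    rw [mul_one] at h
    change X r (Y 1 v) = Z (σ * r) (Y 1 (X r v)) at h
    rw [hv] at h
    exact h
  have hvu : ∀ r, inner ℂ v (Z r u) = inner ℂ v u := by
    intro r
    have h1 : inner ℂ (X (σ * r) v) (X (σ * r) u) = inner ℂ v u := (X (σ * r)).inner_map_map v u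
    rw [hv, hXu, ← mul_assoc, hσ, one_mul] at h1
    exact h1
  -- the space N
  set N : Submodule ℂ H := Submodule.span ℂ {y | ∃ r, y = Z r v - v} with hN
  have hNZ : ∀ r, ∀ n ∈ N, Z r n ∈ N := by
    intro r n hn
    have h1 : N ≤ N.comap ((Z r : H ≃ₗᵢ[ℂ] H).toLinearEquiv : H →ₗ[ℂ] H) := by
      rw [hN, Submodule.span_le]
      rintro y ⟨s, rfl⟩
      change Z r (Z s v - v) ∈ N
      have h2 : Z r (Z s v - v) = (Z (r + s) v - v) - (Z r v - v) := by
        rw [map_sub, Zadd]; abel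
      rw [h2]
      exact N.sub_mem (Submodule.subset_span ⟨r + s, rfl⟩) (Submodule.subset_span ⟨r, rfl⟩)
    exact h1 hn
  have hoZ : ∀ r, ∀ n ∈ Nᗮ, Z r n ∈ Nᗮ := by
    intro r n hn
    rw [Submodule.mem_orthogonal] at hn ⊢
    intro m hm
    rw [Zinner]
    exact hn _ (hNZ _ m hm)
  have hooZ : ∀ r, ∀ n ∈ Nᗮᗮ, Z r n ∈ Nᗮᗮ := by
    intro r n hn
    rw [Submodule.mem_orthogonal] at hn ⊢
    intro m hm
    rw [Zinner]
    exact hn _ (hoZ _ m hm)
  have huN : u ∈ Nᗮ := by
    rw [Submodule.mem_orthogonal]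
    intro m hm
    rw [hN] at hm
    induction hm using Submodule.span_induction with
    | mem x hx =>
      obtain ⟨r, rfl⟩ := hx
      rw [inner_sub_left]
      have h1 := Zinner (-r) v u
      rw [neg_neg] at h1
      rw [← h1, hvu, sub_self]
    | zero => exact inner_zero_left _
    | add x y _ _ hx hy => rw [inner_add_left, hx, hy, add_zero]
    | smul a x _ hx => rw [inner_smul_left, hx, mul_zero]
  -- the projection
  obtain ⟨v', hv', v'', hv'', hvv⟩ := Submodule.exists_add_mem_mem_orthogonal (K := Nᗮ) v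
  have hfixv : ∀ r, Z r v' = v' := by
    intro r
    have h1 : Z r v' - v' ∈ Nᗮ := Nᗮ.sub_mem (hoZ r v' hv') hv'
    have h2 : Z r v' - v' ∈ Nᗮᗮ := by
      have h3 : Z r v' - v' = (Z r v - v) - (Z r v'' - v'') := by
        have : v' = v - v'' := by rw [hvv]; abel
        rw [this, map_sub]; abel
      rw [h3]
      refine Nᗮᗮ.sub_mem ?_ (Nᗮᗮ.sub_mem (hooZ r v'' hv'') hv'')
      exact Submodule.le_orthogonal_orthogonal N (Submodule.subset_span ⟨r, rfl⟩)
    have h4 : inner ℂ (Z r v' - v') (Z r v' - v') = 0 := by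
      rw [Submodule.mem_orthogonal] at h2
      exact h2 _ h1
    exact sub_eq_zero.1 (inner_self_eq_zero.1 h4)
  have hv'0 : v' = 0 := by
    have h1 := (hfix v' hfixv).1
    rw [hvv, inner_add_right] at h1
    have h2 : inner ℂ v' v'' = 0 := by
      rw [Submodule.mem_orthogonal] at hv''
      exact hv'' _ hv'
    rw [h2, add_zero] at h1
    exact inner_self_eq_zero.1 h1
  have hvN : v ∈ Nᗮᗮ := by
    rw [hvv, hv'0, zero_add]
    exact hv''
  have huv : inner ℂ u v = 0 := by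
    rw [Submodule.mem_orthogonal] at hvN
    exact hvN _ huN
  have hnu : ‖u‖ = ‖v‖ := (Y 1).norm_map v
  have huw : inner ℂ u w = inner ℂ v w := by
    have h1 := (Y 1).inner_map_map v w
    rw [hw] at h1
    exact h1
  have h1 : ‖v + u‖ ^ 2 = 2 * ‖v‖ ^ 2 := by
    rw [@norm_add_sq ℂ, hnu, ← inner_conj_symm, huv]
    simp
    ring
  have h2 : inner ℂ (v + u) w = 2 * inner ℂ v w := by
    rw [inner_add_left, huw]; ring
  have h3 := norm_inner_le_norm (𝕜 := ℂ) (v + u) w
  rw [h2, norm_mul, Complex.norm_ofNat] at h3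
  have h4 : (2 * ‖inner ℂ v w‖) ^ 2 ≤ (‖v + u‖ * ‖w‖) ^ 2 :=
    pow_le_pow_left₀ (by positivity) h3 2
  rw [mul_pow, mul_pow, h1] at h4
  nlinarith

end Pool.Agent.N50.HS.HEIS
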