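import Pool.Agent.N298.HS.StmB

/-! Project HS, part OCT (helper50). -/

set_option autoImplicit false

namespace Pool.Agent.N50.HS.OCT

open Pool.Agent.N298.HS

variable {H : Type*} [NormedAddCommGroup H] [InnerProductSpace ℂ H]

lemma pyth {x y : H} (h : inner ℂ x y = 0) : ‖x + y‖ ^ 2 = ‖x‖ ^ 2 + ‖y‖ ^ 2 := by
  rw [@norm_add_sq ℂ, h]
  simp

/-- sum of two vectors -/
lemma two (x y : H) : ‖x + y‖ ^ 2 ≤ 2 * (‖x‖ ^ 2 + ‖y‖ ^ 2) := by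
  have h := parallelogram_law_with_norm ℂ x y
  have h2 := sq_nonneg ‖x - y‖
  nlinarith

/-- the local inequality at one vertex -/
lemma local_ineq (A B C : H →L[ℂ] H)
    (hA : ∀ v, A (A v) = A v) (hB : ∀ v, B (B v) = B v) (hC : ∀ v, C (C v) = C v)
    (sA : ∀ v w, inner ℂ (A v) w = inner ℂ v (A w))
    (sB : ∀ v w, inner ℂ (B v) w = inner ℂ v (B w))
    (sC : ∀ v w, inner ℂ (C v) w = inner ℂ v (C w))
    (AB : ∀ v, A (B v) = B (A v)) (BC : ∀ v, B (C v) = C (B v))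
    (ACB : ∀ v, A (C (B v)) = C (A (B v)))
    (ang : ∀ v w, A v = v → C w = w → B v = 0 → B w = 0 →
      2 * ‖inner ℂ v w‖ ^ 2 ≤ ‖v‖ ^ 2 * ‖w‖ ^ 2)
    (a s1 s2 t1 t2 g : H) (ha : A a = a) (hb : B a = a) (hc : C a = a)
    (hs1 : B s1 = s1) (hs1' : C s1 = s1) (hs2 : C s2 = s2)
    (ht1 : B t1 = t1) (ht1' : A t1 = t1) (ht2 : A t2 = t2)
    (hg : g = (4 : ℂ) • a - s1 - s2 - t1 - t2) :
    ‖g‖ ^ 2 + 1 / 4 * (‖s2 - B s2‖ ^ 2 + ‖t2 - B t2‖ ^ 2) ≤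
      1 / 2 * ‖A (C (B g))‖ ^ 2 +
        2 * (‖s1 - a‖ ^ 2 + ‖s2 - a‖ ^ 2 + ‖t1 - a‖ ^ 2 + ‖t2 - a‖ ^ 2) := by
  set P : H →L[ℂ] H := A.comp (C.comp B) with hP
  have hPx : ∀ x, P x = A (C (B x)) := fun x => rfl
  have hPa : P a = a := by rw [hPx, hb, hc, ha]
  have hBP : ∀ x, B (P x) = P x := by
    intro x
    rw [hPx, ← AB, BC, hB]
  have hPP : ∀ x, P (P x) = P x := by
    intro x
    have h1 : P (P x) = A (C (P x)) := by rw [hPx (P x), hBP]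
    rw [h1, hPx, ACB, hC, ← ACB, hA]
  have sP : ∀ x y, inner ℂ (P x) y = inner ℂ x (P y) := by
    intro x y
    rw [hPx, ACB, sC, sA, sB, ← AB, BC, hPx]
  have e1 : ∀ x, ‖x‖ ^ 2 = ‖P x‖ ^ 2 + ‖x - P x‖ ^ 2 := by
    intro x
    have h : inner ℂ (P x) (x - P x) = 0 := by
      rw [inner_sub_right, ← sP (P x) x |>.symm.trans (by rw [sP]) |>.symm]
      rw [sP x x, sP x (P x), hPP]
      exact sub_self _
    rw [← pyth h]
    congr 2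
    abel
  have e2 : ∀ x, ‖x - P x‖ ^ 2 = ‖x - B x‖ ^ 2 + ‖B x - P x‖ ^ 2 := by
    intro x
    have h : inner ℂ (x - B x) (B x - P x) = 0 := by
      have h1 : B x - P x = B (B x - P x) := by rw [map_sub, hB, hBP]
      rw [h1, ← sB, map_sub, hB, sub_self, inner_zero_left]
    rw [← pyth h]
    congr 2
    abel
  have e3 : ∀ x, ‖x - a‖ ^ 2 = ‖P (x - a)‖ ^ 2 + ‖x - P x‖ ^ 2 := by
    intro x
    have h1 := e1 (x - a)
    have h2 : x - a - P (x - a) = x - P x := by rw [map_sub, hPa]; abel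
    rw [h2] at h1
    exact h1
  -- the projection of g
  have e4 : ‖P g‖ ^ 2 ≤ 4 * (‖P (s1 - a)‖ ^ 2 + ‖P (s2 - a)‖ ^ 2 + ‖P (t1 - a)‖ ^ 2 +
      ‖P (t2 - a)‖ ^ 2) := by
    have h1 : P g = -((P (s1 - a) + P (s2 - a)) + (P (t1 - a) + P (t2 - a))) := by
      rw [← map_add, ← map_add, ← map_add, ← map_neg, hg]
      congr 1
      have h4 : (4 : ℂ) • a = a + a + a + a := by
        rw [show (4 : ℂ) = 1 + 1 + 1 + 1 by norm_num, add_smul, add_smul, add_smul, one_smul]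
      rw [h4]
      abel
    rw [h1, norm_neg]
    have h2 := two (P (s1 - a) + P (s2 - a)) (P (t1 - a) + P (t2 - a))
    have h3 := two (P (s1 - a)) (P (s2 - a))
    have h4 := two (P (t1 - a)) (P (t2 - a))
    linarith
  -- the complement
  set bp := s2 - B s2 with hbp
  set bm := t2 - B t2 with hbm
  set ap := B (s1 + s2) - P (s1 + s2) with hap
  set am := B (t1 + t2) - P (t1 + t2) with ham
  have e5 : g - P g = -((bp + bm) + (ap + am)) := by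
    have h4 : (4 : ℂ) • a = a + a + a + a := by
      rw [show (4 : ℂ) = 1 + 1 + 1 + 1 by norm_num, add_smul, add_smul, add_smul, one_smul]
    rw [hg, h4]
    simp only [hbp, hbm, hap, ham, map_sub, map_add, hPa, hs1, ht1]
    abel
  have hBb : B (bp + bm) = 0 := by
    rw [map_add, hbp, hbm, map_sub, map_sub, hB, hB, sub_self, sub_self, add_zero]
  have hBa : B (ap + am) = ap + am := by
    rw [map_add, hap, ham, map_sub, map_sub, hB, hB, hBP, hBP]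
  have e6 : ‖g - P g‖ ^ 2 = ‖bp + bm‖ ^ 2 + ‖ap + am‖ ^ 2 := by
    rw [e5, norm_neg]
    apply pyth
    rw [← hBa, ← sB, hBb, inner_zero_left]
  -- a's are orthogonal
  have hAap : A ap = 0 := by
    have h1 : C (s1 + s2) = s1 + s2 := by rw [map_add, hs1', hs2]
    have h2 : C (B (s1 + s2)) = B (s1 + s2) := by rw [← BC, h1]
    rw [hap, map_sub, hPx, h2, hA, sub_self]
  have hAam : A am = am := by
    have h1 : A (t1 + t2) = t1 + t2 := by rw [map_add, ht1', ht2]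
    have h2 : A (B (t1 + t2)) = B (t1 + t2) := by rw [AB, h1]
    rw [ham, map_sub, hPx, hA, h2]
  have e7 : ‖ap + am‖ ^ 2 = ‖ap‖ ^ 2 + ‖am‖ ^ 2 := by
    apply pyth
    rw [← hAam, ← sA, hAap, inner_zero_left]
  have e8 : ‖ap‖ ^ 2 ≤ 2 * (‖B s1 - P s1‖ ^ 2 + ‖B s2 - P s2‖ ^ 2) := by
    have h1 : ap = (B s1 - P s1) + (B s2 - P s2) := by
      rw [hap, map_add, map_add]; abel
    rw [h1]
    exact two _ _
  have e9 : ‖am‖ ^ 2 ≤ 2 * (‖B t1 - P t1‖ ^ 2 + ‖B t2 - P t2‖ ^ 2) := by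
    have h1 : am = (B t1 - P t1) + (B t2 - P t2) := by
      rw [ham, map_add, map_add]; abel
    rw [h1]
    exact two _ _
  -- b's
  have e10 : ‖bp + bm‖ ^ 2 ≤ 7 / 4 * (‖bp‖ ^ 2 + ‖bm‖ ^ 2) := by
    have h1 : C bp = bp := by rw [hbp, map_sub, hs2, ← BC, hs2]
    have h2 : A bm = bm := by rw [hbm, map_sub, ht2, AB, ht2]
    have h3 : B bp = 0 := by rw [hbp, map_sub, hB, sub_self]
    have h4 : B bm = 0 := by rw [hbm, map_sub, hB, sub_self]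
    have h5 := ang bm bp h2 h1 h4 h3
    have h6 : ‖bm + bp‖ ^ 2 = ‖bm‖ ^ 2 + 2 * RCLike.re (inner ℂ bm bp) + ‖bp‖ ^ 2 :=
      @norm_add_sq ℂ _ _ _ _ _ _
    have h7 : RCLike.re (inner ℂ bm bp) ≤ ‖inner ℂ bm bp‖ := RCLike.re_le_norm _
    rw [add_comm bp bm, h6]
    have h8 : 2 * ‖inner ℂ bm bp‖ ≤ 3 / 4 * (‖bm‖ ^ 2 + ‖bp‖ ^ 2) := by
      apply le_of_sq_le_sq _ (by positivity)
      nlinarith [sq_nonneg (‖bm‖ ^ 2 - ‖bp‖ ^ 2), sq_nonneg (‖bm‖ ^ 2 + ‖bp‖ ^ 2)]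
    linarith
  have f1 := e1 g
  have f2 := e2 s1
  have f3 := e2 s2
  have f4 := e2 t1
  have f5 := e2 t2
  rw [hs1, sub_self, norm_zero] at f2
  rw [ht1, sub_self, norm_zero] at f4
  rw [hs1] at e8
  rw [ht1] at e9
  have f6 := e3 s1
  have f7 := e3 s2
  have f8 := e3 t1
  have f9 := e3 t2
  rw [← hPx]
  nlinarith

/-- real part of the inner product -/
noncomputable def r (x y : H) : ℝ := RCLike.re (inner ℂ x y)

lemma r_self (x : H) : ‖x‖ ^ 2 = r x x := by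
  unfold r
  rw [inner_self_eq_norm_sq]

lemma r_comm (x y : H) : r x y = r y x := by
  unfold r
  rw [← inner_conj_symm, RCLike.conj_re]

lemma r_sub_left (x y z : H) : r (x - y) z = r x z - r y z := by
  unfold r
  rw [inner_sub_left, map_sub]

lemma r_sub_right (x y z : H) : r z (x - y) = r z x - r z y := by
  unfold r
  rw [inner_sub_right, map_sub]

lemma r_add_left (x y z : H) : r (x + y) z = r x z + r y z := by
  unfold r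
  rw [inner_add_left, map_add]

lemma r_add_right (x y z : H) : r z (x + y) = r z x + r z y := by
  unfold r
  rw [inner_add_right, map_add]

lemma global_ineq (x0 x1 x2 x3 x4 x5 : H) :
    2 * ((‖x1 - x0‖ ^ 2 + ‖x2 - x0‖ ^ 2 + ‖x5 - x0‖ ^ 2 + ‖x4 - x0‖ ^ 2) +
      (‖x2 - x1‖ ^ 2 + ‖x3 - x1‖ ^ 2 + ‖x0 - x1‖ ^ 2 + ‖x5 - x1‖ ^ 2) +
      (‖x3 - x2‖ ^ 2 + ‖x4 - x2‖ ^ 2 + ‖x1 - x2‖ ^ 2 + ‖x0 - x2‖ ^ 2) +
      (‖x4 - x3‖ ^ 2 + ‖x5 - x3‖ ^ 2 + ‖x2 - x3‖ ^ 2 + ‖x1 - x3‖ ^ 2) +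
      (‖x5 - x4‖ ^ 2 + ‖x0 - x4‖ ^ 2 + ‖x3 - x4‖ ^ 2 + ‖x2 - x4‖ ^ 2) +
      (‖x0 - x5‖ ^ 2 + ‖x1 - x5‖ ^ 2 + ‖x4 - x5‖ ^ 2 + ‖x3 - x5‖ ^ 2)) ≤
    ‖(x0 + x0 + x0 + x0) - x1 - x2 - x5 - x4‖ ^ 2 +
    ‖(x1 + x1 + x1 + x1) - x2 - x3 - x0 - x5‖ ^ 2 +
    ‖(x2 + x2 + x2 + x2) - x3 - x4 - x1 - x0‖ ^ 2 +
    ‖(x3 + x3 + x3 + x3) - x4 - x5 - x2 - x1‖ ^ 2 +
    ‖(x4 + x4 + x4 + x4) - x5 - x0 - x3 - x2‖ ^ 2 +
    ‖(x5 + x5 + x5 + x5) - x0 - x1 - x4 - x3‖ ^ 2 := by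
  have h1 : 0 ≤ ‖(x0 + x3) - (x1 + x4)‖ ^ 2 := sq_nonneg _
  have h2 : 0 ≤ ‖(x0 + x3) - (x2 + x5)‖ ^ 2 := sq_nonneg _
  have h3 : 0 ≤ ‖(x1 + x4) - (x2 + x5)‖ ^ 2 := sq_nonneg _
  simp only [r_self, r_sub_left, r_sub_right, r_add_left, r_add_right] at h1 h2 h3 ⊢
  rw [r_comm x1 x0, r_comm x2 x0, r_comm x3 x0, r_comm x4 x0, r_comm x5 x0] at *
  rw [r_comm x2 x1, r_comm x3 x1, r_comm x4 x1, r_comm x5 x1] at *
  rw [r_comm x3 x2, r_comm x4 x2, r_comm x5 x2] at *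
  rw [r_comm x4 x3, r_comm x5 x3, r_comm x5 x4] at *
  linarith

theorem t_oct : S_OCT := by
  intro H _ _ Q hidem hsym hcomm hc4 hang f h0 hm hp
  have hloc : ∀ i : Fin 6,
      ‖(4 : ℂ) • f i - f (i + 1) - f (i + 2) - f (i - 1) - f (i - 2)‖ ^ 2 +
        1 / 4 * (‖f (i + 2) - Q i (f (i + 2))‖ ^ 2 + ‖f (i - 2) - Q i (f (i - 2))‖ ^ 2) ≤
      1 / 2 * ‖Q (i - 1) (Q (i + 1) (Q i
        ((4 : ℂ) • f i - f (i + 1) - f (i + 2) - f (i - 1) - f (i - 2))))‖ ^ 2 +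
        2 * (‖f (i + 1) - f i‖ ^ 2 + ‖f (i + 2) - f i‖ ^ 2 + ‖f (i - 1) - f i‖ ^ 2 +
          ‖f (i - 2) - f i‖ ^ 2) := by
    intro i
    have k1 : i - 1 + 1 = i := by abel
    have k2 : i - 1 + 2 = i + 1 := by
      rw [sub_add]
      have : (1 : Fin 6) - 2 = -1 := by decide
      rw [this, sub_neg_eq_add]
    have k3 : i + 1 - 1 = i := by abel
    have k4 : i + 2 - 1 = i + 1 := by
      rw [add_sub_assoc]
      have : (2 : Fin 6) - 1 = 1 := by decide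
      rw [this]
    have k5 : i - 2 + 1 = i - 1 := by
      rw [sub_add]
      have : (2 : Fin 6) - 1 = 1 := by decide
      rw [this]
    refine local_ineq (Q (i - 1)) (Q i) (Q (i + 1)) (hidem _) (hidem _) (hidem _) (hsym _)
      (hsym _) (hsym _) ?_ (hcomm i) ?_ ?_ (f i) (f (i + 1)) (f (i + 2)) (f (i - 1)) (f (i - 2))
      _ (hm i) (h0 i) (hp i) ?_ (h0 _) ?_ ?_ (h0 _) ?_ rfl
    · intro v
      have := hcomm (i - 1) v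
      rw [k1] at this
      exact this
    · intro v
      have := hc4 (i - 1) v
      rw [k1, k2] at this
      exact this
    · intro v w h1 h2 h3 h4
      have := hang (i - 1) v w h1
      rw [k1, k2] at this
      exact this h2 h3 h4
    · have := hm (i + 1)
      rw [k3] at this
      exact this
    · have := hm (i + 2)
      rw [k4] at this
      exact this
    · have := hp (i - 1)
      rw [k1] at this
      exact this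
    · have := hp (i - 2)
      rw [k5] at this
      exact this
  have hsum := Finset.sum_le_sum (fun (i : Fin 6) (_ : i ∈ Finset.univ) => hloc i)
  have hglob := global_ineq (f 0) (f 1) (f 2) (f 3) (f 4) (f 5)
  have h4 : ∀ x : H, (4 : ℂ) • x = x + x + x + x := by
    intro x
    rw [show (4 : ℂ) = 1 + 1 + 1 + 1 by norm_num, add_smul, add_smul, add_smul, one_smul]
  rw [Finset.sum_add_distrib, Finset.sum_add_distrib, ← Finset.mul_sum, ← Finset.mul_sum,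
    ← Finset.mul_sum] at hsum
  have hG : ∑ i : Fin 6, ‖(4 : ℂ) • f i - f (i + 1) - f (i + 2) - f (i - 1) - f (i - 2)‖ ^ 2 =
      ‖(f 0 + f 0 + f 0 + f 0) - f 1 - f 2 - f 5 - f 4‖ ^ 2 +
    ‖(f 1 + f 1 + f 1 + f 1) - f 2 - f 3 - f 0 - f 5‖ ^ 2 +
    ‖(f 2 + f 2 + f 2 + f 2) - f 3 - f 4 - f 1 - f 0‖ ^ 2 +
    ‖(f 3 + f 3 + f 3 + f 3) - f 4 - f 5 - f 2 - f 1‖ ^ 2 +
    ‖(f 4 + f 4 + f 4 + f 4) - f 5 - f 0 - f 3 - f 2‖ ^ 2 +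
    ‖(f 5 + f 5 + f 5 + f 5) - f 0 - f 1 - f 4 - f 3‖ ^ 2 := by
    simp only [h4]
    rw [Fin.sum_univ_six]
    rfl
  have hE : ∑ i : Fin 6, (‖f (i + 1) - f i‖ ^ 2 + ‖f (i + 2) - f i‖ ^ 2 + ‖f (i - 1) - f i‖ ^ 2 +
          ‖f (i - 2) - f i‖ ^ 2) =
      (‖f 1 - f 0‖ ^ 2 + ‖f 2 - f 0‖ ^ 2 + ‖f 5 - f 0‖ ^ 2 + ‖f 4 - f 0‖ ^ 2) +
      (‖f 2 - f 1‖ ^ 2 + ‖f 3 - f 1‖ ^ 2 + ‖f 0 - f 1‖ ^ 2 + ‖f 5 - f 1‖ ^ 2) +
      (‖f 3 - f 2‖ ^ 2 + ‖f 4 - f 2‖ ^ 2 + ‖f 1 - f 2‖ ^ 2 + ‖f 0 - f 2‖ ^ 2) +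
      (‖f 4 - f 3‖ ^ 2 + ‖f 5 - f 3‖ ^ 2 + ‖f 2 - f 3‖ ^ 2 + ‖f 1 - f 3‖ ^ 2) +
      (‖f 5 - f 4‖ ^ 2 + ‖f 0 - f 4‖ ^ 2 + ‖f 3 - f 4‖ ^ 2 + ‖f 2 - f 4‖ ^ 2) +
      (‖f 0 - f 5‖ ^ 2 + ‖f 1 - f 5‖ ^ 2 + ‖f 4 - f 5‖ ^ 2 + ‖f 3 - f 5‖ ^ 2) := by
    rw [Fin.sum_univ_six]
    rfl
  rw [hG, hE] at hsum
  linarith

end Pool.Agent.N50.HS.OCT
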