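import Pool.Agent.N298.HS.StmC

/-! Project HS, part SOF (helper50). -/

set_option autoImplicit false

namespace Pool.Agent.N50.HS.SOF

open Pool.Agent.N298.HS

lemma dis_eq {n : ℕ} (σ τ : Equiv.Perm (Fin n)) :
    ((Finset.univ.filter fun i => σ i ≠ τ i).card : ℝ) =
      n - ((Finset.univ.filter fun i => σ i = τ i).card : ℝ) := by
  have h := Finset.card_filter_add_card_filter_not (s := (Finset.univ : Finset (Fin n)))
    (fun i => σ i = τ i)
  rw [Finset.card_univ, Fintype.card_fin] at h
  have h2 : ((Finset.univ.filter fun i => σ i = τ i).card : ℝ) +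
      ((Finset.univ.filter fun i => ¬ (σ i = τ i)).card : ℝ) = n := by exact_mod_cast h
  linarith

theorem t_sof : S_SOF := by
  intro G _ hyp A hA ε hε
  classical
  have he : 0 < min ε 1 / 4 := by positivity
  obtain ⟨n, hn, φ, hmul, hfix⟩ := hyp A (min ε 1 / 4) he
  set e := min ε 1 / 4 with hed
  have he1 : 4 * e ≤ ε := by rw [hed]; linarith [min_le_left ε 1]
  have hn0 : (0 : ℝ) < n := by exact_mod_cast hn
  -- disagreement of products
  have hd : ∀ a ∈ A, ∀ b ∈ A,
      ((Finset.univ.filter fun i => φ (a * b) i ≠ (φ a * φ b) i).card : ℝ) ≤ e * n := by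
    intro a ha b hb
    rw [dis_eq]
    have := hmul a ha b hb
    linarith
  have h1 : ((Finset.univ.filter fun i => φ 1 i ≠ i).card : ℝ) ≤ e * n := by
    have h2 := hd 1 hA 1 hA
    rw [mul_one] at h2
    have h3 : (Finset.univ.filter fun i => φ 1 i ≠ i) =
        (Finset.univ.filter fun i => φ 1 i ≠ (φ 1 * φ 1) i) := by
      ext i
      rw [Finset.mem_filter, Finset.mem_filter, Equiv.Perm.mul_apply]
      simp only [Finset.mem_univ, true_and]
      constructor
      · intro h4 h5
        exact h4 ((φ 1).injective h5).symm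
      · intro h4 h5
        apply h4
        rw [h5]; exact h5.symm
    rw [h3]
    exact h2
  refine ⟨n, hn, fun g => if g = 1 then 1 else φ g, by simp, ?_, ?_⟩
  · intro a ha b hb hab
    by_cases ha1 : a = 1
    · subst ha1
      simp only [one_mul, if_true]
      unfold Pool.Agent.H21R2.hamm
      simp [hε]
    by_cases hb1 : b = 1
    · subst hb1
      simp only [mul_one, if_true]
      unfold Pool.Agent.H21R2.hamm
      simp [hε]
    simp only [if_neg ha1, if_neg hb1]
    by_cases hab1 : a * b = 1
    · rw [if_pos hab1]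
      unfold Pool.Agent.H21R2.hamm
      rw [div_lt_iff₀ hn0]
      have h2 := hd a ha b hb
      rw [hab1] at h2
      have h3 : (Finset.univ.filter fun i => (1 : Equiv.Perm (Fin n)) i ≠ (φ a * φ b) i) ⊆
          (Finset.univ.filter fun i => φ 1 i ≠ (φ a * φ b) i) ∪
          (Finset.univ.filter fun i => φ 1 i ≠ i) := by
        intro i hi
        rw [Finset.mem_filter, Equiv.Perm.one_apply] at hi
        rw [Finset.mem_union, Finset.mem_filter, Finset.mem_filter]
        simp only [Finset.mem_univ, true_and] at hi ⊢
        by_contra hcon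
        push Not at hcon
        exact hi (hcon.2.symm.trans hcon.1)
      have h4 := (Finset.card_le_card h3).trans (Finset.card_union_le _ _)
      have h5 : ((Finset.univ.filter fun i => (1 : Equiv.Perm (Fin n)) i ≠ (φ a * φ b) i).card : ℝ)
          ≤ ((Finset.univ.filter fun i => φ 1 i ≠ (φ a * φ b) i).card : ℝ) +
          ((Finset.univ.filter fun i => φ 1 i ≠ i).card : ℝ) := by exact_mod_cast h4
      have h6 : 0 < e * n := mul_pos he hn0
      nlinarith
    · rw [if_neg hab1]
      unfold Pool.Agent.H21R2.hamm
      rw [div_lt_iff₀ hn0]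
      have h2 := hd a ha b hb
      have h6 : 0 < e * n := mul_pos he hn0
      nlinarith
  · intro a ha ha1
    simp only [if_neg ha1]
    unfold Pool.Agent.H21R2.hamm
    rw [le_div_iff₀ hn0, dis_eq]
    have h2 := hfix a ha ha1
    have h6 : 0 < e * n := mul_pos he hn0
    have h7 : 4 * (e * n) ≤ ε * n := by nlinarith
    have h8 : (Finset.univ.filter fun i => φ a i = (1 : Equiv.Perm (Fin n)) i) =
        Finset.univ.filter fun i => φ a i = i := by
      apply Finset.filter_congr
      intro i _
      rw [Equiv.Perm.one_apply]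
    rw [h8]
    linarith

end Pool.Agent.N50.HS.SOF
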